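import Pool.Agent.H5.BHG.Stmts

/-! Row ONA of board bhg: attractors when all vertices are owned by the same player. -/

set_option autoImplicit false

namespace Pool.BHG

open Filter TMLib Pool.PG Pool.DPG

theorem ona_fwd {V : Type} (own : V → Bool) (E : V → V → Prop) (q : Bool) (S U A : Finset V)
    (hA : IsAtr own E q S U A) (hS : ∀ v ∈ S, own v = q) :
    ∀ v ∈ A, ∃ w, Relation.ReflTransGen (fun a b => a ∈ S ∧ b ∈ S ∧ E a b) v w ∧ w ∈ U := by
  obtain ⟨hUA, hAS, ⟨α, ρ, h1, h2⟩, h3, h4⟩ := hA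
  have key : ∀ n : ℕ, ∀ v ∈ A, ρ v = n →
      ∃ w, Relation.ReflTransGen (fun a b => a ∈ S ∧ b ∈ S ∧ E a b) v w ∧ w ∈ U := by
    intro n
    induction n using Nat.strong_induction_on with
    | _ n ih =>
      intro v hv hn
      by_cases hvU : v ∈ U
      · exact ⟨v, Relation.ReflTransGen.refl, hvU⟩
      · obtain ⟨a1, a2, a3⟩ := h1 v hv hvU (hS v (hAS hv))
        obtain ⟨w, hw, hwU⟩ := ih (ρ (α v)) (hn ▸ a3) (α v) a1 rfl
        exact ⟨w, Relation.ReflTransGen.head ⟨hAS hv, hAS a1, a2⟩ hw, hwU⟩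
  intro v hv
  exact key _ v hv rfl

theorem ona_bwd {V : Type} (own : V → Bool) (E : V → V → Prop) (q : Bool) (S U A : Finset V)
    (hA : IsAtr own E q S U A) (hS : ∀ v ∈ S, own v = q) (v w : V)
    (hp : Relation.ReflTransGen (fun a b => a ∈ S ∧ b ∈ S ∧ E a b) v w) (hw : w ∈ U) :
    v ∈ A := by
  obtain ⟨hUA, hAS, -, h3, -⟩ := hA
  induction hp using Relation.ReflTransGen.head_induction_on with
  | refl => exact hUA hw
  | head hab _ ih =>
    obtain ⟨ha, hb, hE⟩ := hab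
    by_contra hn
    exact h3 _ ha hn (hS _ ha) _ hb hE ih

theorem ona_thm : ONAStmt := by
  intro g q X T hX hS v
  obtain ⟨-, hA⟩ := atl_thm g q X T hX
  constructor
  · intro hv
    obtain ⟨w, hw, hU⟩ := ona_fwd _ _ _ _ _ _ hA hS v hv
    rw [Finset.mem_inter] at hU
    exact ⟨w, hw, hU.1, hU.2⟩
  · rintro ⟨w, hw, h1, h2⟩
    exact ona_bwd _ _ _ _ _ _ hA hS v w hw (Finset.mem_inter.2 ⟨h1, h2⟩)

end Pool.BHG
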